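import Pool.Agent.helper37.ND.Spec

/-!
# MP_baa4d7_al, THEOREM ND: row GKN, the number of characters of a block by subsections
-/

set_option autoImplicit false

namespace Pool.Agent.ND

open Pool.Agent.helper58.DC Pool.Agent.DI Pool.Agent.GR Pool.Agent.OB Pool.Agent.DR Pool.Agent.FI Pool.Agent.FI3 Pool.Agent.FI4 Pool.Agent.FI4I Pool.Agent.LE Pool.Agent.L5 Pool.Agent.NAB

theorem GKN (hPPT : PPT_stmt) (hBRY : BRY_stmt) (hB2 : B2_stmt) : GKN_stmt := by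
  intro p M hS G _ _ N φ
  have hB : (Bl M N φ).Finite := (hB2 G N).1.subset fun ψ h => h.1
  have e1 : (Nat.card N : ℂ) * ((Bl M N φ).ncard : ℂ) = ∑ᶠ ψ ∈ Bl M N φ, ∑ᶠ g ∈ (N : Set G), ψ g * ψ g⁻¹ := by
    have e2 : ∑ᶠ ψ ∈ Bl M N φ, ∑ᶠ g ∈ (N : Set G), ψ g * ψ g⁻¹ = ∑ᶠ ψ ∈ Bl M N φ, (Nat.card N : ℂ) := by
      refine finsum_mem_congr rfl fun ψ hψ => ?_
      obtain ⟨-, -, -, h0, hor⟩ := (hB2 G N).2 ψ hψ.1
      have h1 := hor ψ hψ.1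
      rw [if_pos rfl] at h1
      rw [← h1, finsum_mem_def]
      refine finsum_congr fun g => ?_
      by_cases hg : g ∈ (N : Set G)
      · rw [Set.indicator_of_mem hg]
      · rw [Set.indicator_of_notMem hg, h0 g hg, zero_mul]
    rw [e2, finsum_mem_eq_finite_toFinset_sum _ hB, Finset.sum_const, Set.ncard_eq_toFinset_card _ hB, nsmul_eq_mul, mul_comm]
  rw [e1, finsum_mem_comm _ hB (Set.toFinite _)]
  have e3 : ∑ᶠ g ∈ (N : Set G), ∑ᶠ ψ ∈ Bl M N φ, ψ g * ψ g⁻¹ = ∑ᶠ g ∈ (N : Set G), Sf (Bl M N φ) g g := rfl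
  rw [e3, hPPT p hS.pr G N (fun g => Sf (Bl M N φ) g g)]
  refine finsum_mem_congr rfl fun y hy => ?_
  have e4 : ∑ᶠ v ∈ {v : G | v ∈ Cz N y ∧ PReg p v}, Sf (Bl M N φ) (y * v) (y * v) =
      ∑ᶠ v ∈ {v : G | v ∈ Cz N y ∧ PReg p v}, ∑ᶠ η ∈ Bq M N (Cz N y) φ, η v * η v⁻¹ := by
    refine finsum_mem_congr rfl fun v hv => ?_
    exact hBRY p M hS G N y hy.1 hy.2 φ v hv.1 v hv.1 hv.2 hv.2
  have hq : (Bq M N (Cz N y) φ).Finite := (hB2 G (Cz N y)).1.subset fun ψ h => h.1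
  rw [e4, finsum_mem_comm _ (Set.toFinite _) hq, mul_finsum_mem]
  refine finsum_mem_congr rfl fun η _ => ?_
  unfold EE
  have hc : (Nat.card (Cz N y) : ℂ) ≠ 0 := by
    exact_mod_cast Nat.card_pos.ne'
  rw [mul_div_cancel₀ _ hc]

end Pool.Agent.ND
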